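import Mathlib

/-!
# Even-cycle-intersecting families of permutations

For every `n ≥ 5` there is an extremal even-cycle-intersecting family in `S_n` which is not a
double-translate of a Sylow 2-subgroup: the even and the odd part of such a family can be cosets of
two different Sylow 2-subgroups of the alternating group. For `n = 7` not even the size is right:
there is a family with `32` members, twice the order of a Sylow 2-subgroup.
-/

set_option autoImplicit false

namespace Pool.Agent.Results.MP_acd7ab_co.NotOnlySylow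

open Equiv Equiv.Perm

/-- The disjoint cycle decomposition of `σ` has a cycle of even length. -/
def HasEvenCycle {n : ℕ} (σ : Perm (Fin n)) : Prop := ∃ k ∈ σ.cycleType, Even k

/-- The family `F` is even-cycle-intersecting. -/
def IsECI {n : ℕ} (F : Finset (Perm (Fin n))) : Prop :=
  ∀ σ ∈ F, ∀ π ∈ F, σ ≠ π → HasEvenCycle (σ * π⁻¹)

/-- `F` is an even-cycle-intersecting family of the largest possible size. -/
def IsExtremal {n : ℕ} (F : Finset (Perm (Fin n))) : Prop :=
  IsECI F ∧ ∀ F' : Finset (Perm (Fin n)), IsECI F' → F'.card ≤ F.card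

/-- `F` is a double-translate `σ P π` of a Sylow 2-subgroup `P`. -/
def IsDoubleTranslate {n : ℕ} (F : Finset (Perm (Fin n))) : Prop :=
  ∃ (P : Sylow 2 (Perm (Fin n))) (σ π : Perm (Fin n)),
    (F : Set (Perm (Fin n))) = {x | ∃ g ∈ P, x = σ * g * π}

/-! ### Two sources of even cycles -/

lemma even_of_sign {n : ℕ} {σ : Perm (Fin n)} (h : sign σ ≠ 1) : HasEvenCycle σ := by
  by_contra hcon
  apply h
  have hodd : ∀ k ∈ σ.cycleType, Odd k := by
    intro k hk
    rw [← Nat.not_even_iff_odd]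
    exact fun he => hcon ⟨k, hk, he⟩
  rw [sign_of_cycleType]
  have key : ∀ s : Multiset ℕ, (∀ k ∈ s, Odd k) → Even (s.sum + s.card) := by
    intro s
    induction s using Multiset.induction_on with
    | empty => intro _; simp
    | cons a s ih =>
      intro hs
      have h1 := ih fun k hk => hs k (Multiset.mem_cons_of_mem hk)
      have h2 := hs a (Multiset.mem_cons_self a s)
      rw [Multiset.sum_cons, Multiset.card_cons]
      obtain ⟨x, hx⟩ := h1
      obtain ⟨y, hy⟩ := h2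
      exact ⟨x + y + 1, by omega⟩
  exact (key _ hodd).neg_one_pow

lemma even_of_two_group {n : ℕ} {P : Sylow 2 (Perm (Fin n))} {x : Perm (Fin n)} (hx : x ∈ P)
    (h1 : x ≠ 1) : HasEvenCycle x := by
  obtain ⟨k, hk⟩ := P.isPGroup' ⟨x, hx⟩
  have hk' : x ^ 2 ^ k = 1 := by
    have := congrArg Subtype.val hk
    simpa using this
  have hne : x.cycleType ≠ 0 := by
    rw [Ne, cycleType_eq_zero]
    exact h1
  obtain ⟨l, hl⟩ := Multiset.exists_mem_of_ne_zero hne
  refine ⟨l, hl, ?_⟩
  have h2 : l ∣ 2 ^ k := (dvd_of_mem_cycleType hl).trans (orderOf_dvd_of_pow_eq_one hk')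
  obtain ⟨j, -, rfl⟩ := (Nat.dvd_prime_pow Nat.prime_two).1 h2
  have h3 : 2 ≤ 2 ^ j := two_le_of_mem_cycleType hl
  have h4 : j ≠ 0 := by
    rintro rfl
    simp at h3
  exact Nat.even_pow.2 ⟨even_two, h4⟩

lemma HasEvenCycle.conj {n : ℕ} {σ : Perm (Fin n)} (h : HasEvenCycle σ) (g : Perm (Fin n)) :
    HasEvenCycle (g * σ * g⁻¹) := by
  rw [HasEvenCycle, cycleType_conj]
  exact h

lemma HasEvenCycle.ne_one {n : ℕ} {σ : Perm (Fin n)} (h : HasEvenCycle σ) : σ ≠ 1 := by
  rintro rfl
  obtain ⟨k, hk, -⟩ := h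
  simp at hk

/-! ### Gluing cosets of two Sylow subgroups -/

section Glue

variable {n : ℕ}

/-- The four-group generated by two commuting involutions. -/
def four (a b : Perm (Fin n)) (ha : a * a = 1) (hb : b * b = 1) (hab : b * a = a * b) :
    Subgroup (Perm (Fin n)) where
  carrier := {g | g = 1 ∨ g = a ∨ g = b ∨ g = a * b}
  one_mem' := Or.inl rfl
  mul_mem' := by
    have e1 : ∀ x, a * (a * x) = x := fun x => by rw [← mul_assoc, ha, one_mul]
    have e2 : ∀ x, b * (b * x) = x := fun x => by rw [← mul_assoc, hb, one_mul]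
    have e3 : ∀ x, b * (a * x) = a * (b * x) := fun x => by rw [← mul_assoc, hab, mul_assoc]
    rintro x y (rfl | rfl | rfl | rfl) (rfl | rfl | rfl | rfl) <;>
      simp only [Set.mem_ofPred_eq, one_mul, mul_one, mul_assoc, ha, hb, hab, e1, e3,
        true_or, or_true]
  inv_mem' := by
    have ha' : a⁻¹ = a := inv_eq_of_mul_eq_one_right ha
    have hb' : b⁻¹ = b := inv_eq_of_mul_eq_one_right hb
    rintro x (rfl | rfl | rfl | rfl) <;>
      simp only [Set.mem_ofPred_eq, inv_one, mul_inv_rev, ha', hb', hab, true_or, or_true]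

lemma four_isPGroup (a b : Perm (Fin n)) (ha : a * a = 1) (hb : b * b = 1)
    (hab : b * a = a * b) : IsPGroup 2 (four a b ha hb hab) := by
  rintro ⟨g, hg⟩
  refine ⟨1, ?_⟩
  apply Subtype.ext
  have e3 : a * b * (a * b) = 1 := by
    rw [mul_assoc, ← mul_assoc b a b, hab, mul_assoc a b b, hb, mul_one, ha]
  have : g * g = 1 := by
    rcases hg with rfl | rfl | rfl | rfl
    · exact one_mul _
    · exact ha
    · exact hb
    · exact e3
  simpa [pow_two] using this

open Classical in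
theorem exists_extremal (hn : 5 ≤ n) :
    ∃ F : Finset (Perm (Fin n)), IsExtremal F ∧ ¬ IsDoubleTranslate F := by
  -- a family of maximum size
  have hex : ∃ F₁ : Finset (Perm (Fin n)), IsExtremal F₁ := by
    obtain ⟨F₁, h1, h2⟩ := Finset.exists_max_image
      (Finset.univ.filter fun F : Finset (Perm (Fin n)) => IsECI F) Finset.card
      ⟨∅, Finset.mem_filter.2 ⟨Finset.mem_univ _, by intro σ hσ; simp at hσ⟩⟩
    rw [Finset.mem_filter] at h1
    exact ⟨F₁, h1.2, fun F' hF' => h2 F' (by simp [hF'])⟩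
  obtain ⟨F₁, hF₁⟩ := hex
  by_cases hdt : IsDoubleTranslate F₁
  swap
  · exact ⟨F₁, hF₁, hdt⟩
  -- five points
  let p : Fin 5 → Fin n := fun i => ⟨i.val, by omega⟩
  have hp : Function.Injective p := by
    intro i j h
    have : i.val = j.val := by simpa [p] using h
    exact Fin.ext this
  have hne : ∀ i j : Fin 5, i ≠ j → p i ≠ p j := fun i j h h' => h (hp h')
  set a : Perm (Fin n) := swap (p 0) (p 1) with ha
  set b : Perm (Fin n) := swap (p 2) (p 3) with hb
  set b' : Perm (Fin n) := swap (p 2) (p 4) with hb'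
  set g : Perm (Fin n) := swap (p 3) (p 4) with hg
  have haa : a * a = 1 := swap_mul_self _ _
  have hbb : b * b = 1 := swap_mul_self _ _
  have hcomm : ∀ i j : Fin 5, i ≠ 0 → i ≠ 1 → j ≠ 0 → j ≠ 1 →
      swap (p i) (p j) * a = a * swap (p i) (p j) := by
    intro i j hi0 hi1 hj0 hj1
    have h1 : a * swap (p i) (p j) * a⁻¹ = swap (p i) (p j) := by
      rw [← swap_apply_apply, ha, swap_apply_of_ne_of_ne (hne _ _ hi0) (hne _ _ hi1),
        swap_apply_of_ne_of_ne (hne _ _ hj0) (hne _ _ hj1)]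
    rw [mul_inv_eq_iff_eq_mul] at h1
    exact h1.symm
  have hab : b * a = a * b := hcomm 2 3 (by decide) (by decide) (by decide) (by decide)
  have hga : g * a = a * g := hcomm 3 4 (by decide) (by decide) (by decide) (by decide)
  have hgb : g * b * g⁻¹ = b' := by
    rw [hb, ← swap_apply_apply, hg, swap_apply_of_ne_of_ne (hne _ _ (by decide))
      (hne _ _ (by decide)), swap_apply_left]
  obtain ⟨P, hP⟩ := (four_isPGroup a b haa hbb hab).exists_le_sylow
  have haP : a ∈ P := hP (Or.inr (Or.inl rfl))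
  have hbP : b ∈ P := hP (Or.inr (Or.inr (Or.inl rfl)))
  have hsa : sign a = -1 := sign_swap (hne _ _ (by decide))
  have hsb : sign b = -1 := sign_swap (hne _ _ (by decide))
  -- the even part of `P`
  set Q : Finset (Perm (Fin n)) := Finset.univ.filter fun x => x ∈ P ∧ sign x = 1 with hQ
  have hmQ : ∀ x, x ∈ Q ↔ x ∈ P ∧ sign x = 1 := fun x => by simp [hQ]
  have hQ1 : (1 : Perm (Fin n)) ∈ Q := (hmQ 1).2 ⟨P.one_mem, by simp⟩
  have hcard2 : ∀ φ : Perm (Fin n) → Perm (Fin n), Function.Injective φ →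
      (∀ x, sign (φ x) = sign x) → (Q ∪ Q.image fun x => a * φ x).card = 2 * Q.card := by
    intro φ hφ hs
    rw [Finset.card_union_of_disjoint, Finset.card_image_of_injective, two_mul]
    · exact fun x y h => hφ (mul_left_cancel h)
    · rw [Finset.disjoint_left]
      intro x hx hx'
      obtain ⟨y, hy, rfl⟩ := Finset.mem_image.1 hx'
      have h1 := ((hmQ _).1 hx).2
      rw [Perm.sign_mul, hs, hsa, ((hmQ _).1 hy).2] at h1
      exact absurd h1 (by decide)
  have hPF : (Finset.univ.filter fun x : Perm (Fin n) => x ∈ P) =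
      Q ∪ Q.image fun x => a * id x := by
    ext x
    rw [Finset.mem_filter, Finset.mem_union, Finset.mem_image, hmQ]
    constructor
    · rintro ⟨-, hx⟩
      rcases Int.units_eq_one_or (sign x) with h1 | h1
      · exact Or.inl ⟨hx, h1⟩
      · refine Or.inr ⟨a * x, (hmQ _).2 ⟨P.mul_mem haP hx, ?_⟩, ?_⟩
        · rw [Perm.sign_mul, hsa, h1]
          decide
        · rw [id, ← mul_assoc, haa, one_mul]
    · rintro (⟨hx, -⟩ | ⟨y, hy, rfl⟩)
      · exact ⟨Finset.mem_univ _, hx⟩
      · exact ⟨Finset.mem_univ _, P.mul_mem haP ((hmQ _).1 hy).1⟩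
  have hcardP : Nat.card P = 2 * Q.card := by
    rw [← hcard2 id Function.injective_id fun _ => rfl, ← hPF, Nat.card_eq_fintype_card]
    exact Fintype.card_subtype fun x : Perm (Fin n) => x ∈ P
  have hsconj : ∀ x, sign (g * x * g⁻¹) = sign x := by
    intro x
    rw [Perm.sign_mul, Perm.sign_mul, Perm.sign_inv, mul_comm (sign g), mul_assoc,
      Int.units_mul_self, mul_one]
  -- the glued family
  set F : Finset (Perm (Fin n)) := Q ∪ Q.image fun x => a * (g * x * g⁻¹) with hF
  have hcardF : F.card = Nat.card P := by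
    rw [hcardP]
    refine hcard2 (fun x => g * x * g⁻¹) (fun x y h => ?_) fun x => ?_
    · exact mul_left_cancel (mul_right_cancel h)
    · exact hsconj x
  have hcardF₁ : F₁.card = Nat.card P := by
    obtain ⟨P₁, σ, π, h1⟩ := hdt
    have h2 : F₁ = (Finset.univ.filter fun x : Perm (Fin n) => x ∈ P₁).image
        fun x => σ * x * π := by
      ext x
      have h3 : x ∈ F₁ ↔ ∃ g ∈ P₁, x = σ * g * π := by
        rw [← Finset.mem_coe, h1]
        rfl
      rw [h3, Finset.mem_image]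
      constructor
      · rintro ⟨y, hy, rfl⟩
        exact ⟨y, Finset.mem_filter.2 ⟨Finset.mem_univ _, hy⟩, rfl⟩
      · rintro ⟨y, hy, rfl⟩
        exact ⟨y, (Finset.mem_filter.1 hy).2, rfl⟩
    rw [h2, Finset.card_image_of_injective _ fun x y h => mul_left_cancel (mul_right_cancel h),
      Nat.card_congr (Sylow.equiv P P₁).toEquiv, Nat.card_eq_fintype_card]
    exact (Fintype.card_subtype fun x : Perm (Fin n) => x ∈ P₁).symm
  have hECI : IsECI F := by
    intro x hx y hy hxy
    rw [hF, Finset.mem_union, Finset.mem_image] at hx hy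
    rcases hx with hx | ⟨x', hx', rfl⟩ <;> rcases hy with hy | ⟨y', hy', rfl⟩
    · exact even_of_two_group (P := P)
        (P.mul_mem ((hmQ _).1 hx).1 (P.inv_mem ((hmQ _).1 hy).1))
        (fun h => hxy (mul_inv_eq_one.1 h))
    · apply even_of_sign
      rw [Perm.sign_mul, Perm.sign_inv, Perm.sign_mul, hsconj, ((hmQ _).1 hx).2,
        ((hmQ _).1 hy').2, hsa]
      decide
    · apply even_of_sign
      rw [Perm.sign_mul, Perm.sign_inv, Perm.sign_mul, hsconj, ((hmQ _).1 hx').2,
        ((hmQ _).1 hy).2, hsa]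
      decide
    · have h1 : a * (g * x' * g⁻¹) * (a * (g * y' * g⁻¹))⁻¹ =
          (a * g) * (x' * y'⁻¹) * (a * g)⁻¹ := by group
      rw [h1]
      apply HasEvenCycle.conj
      refine even_of_two_group (P := P)
        (P.mul_mem ((hmQ _).1 hx').1 (P.inv_mem ((hmQ _).1 hy').1)) fun h => hxy ?_
      rw [mul_inv_eq_one.1 h]
  refine ⟨F, ⟨hECI, fun F' hF' => ?_⟩, ?_⟩
  · rw [hcardF, ← hcardF₁]
    exact hF₁.2 F' hF'
  · rintro ⟨P', σ, π, hF'⟩
    have hmF : ∀ x, x ∈ F ↔ ∃ y ∈ P', x = σ * y * π := by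
      intro x
      rw [← Finset.mem_coe, hF']
      rfl
    have hcos : ∀ x y z, x ∈ F → y ∈ F → z ∈ F → x * y⁻¹ * z ∈ F := by
      intro x y z hx hy hz
      rw [hmF] at hx hy hz ⊢
      obtain ⟨x', hx', rfl⟩ := hx
      obtain ⟨y', hy', rfl⟩ := hy
      obtain ⟨z', hz', rfl⟩ := hz
      exact ⟨x' * y'⁻¹ * z', P'.mul_mem (P'.mul_mem hx' (P'.inv_mem hy')) hz', by group⟩
    have hF1 : (1 : Perm (Fin n)) ∈ F := Finset.mem_union_left _ hQ1
    have hFa : a ∈ F := by
      refine Finset.mem_union_right _ (Finset.mem_image.2 ⟨1, hQ1, ?_⟩)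
      group
    have habQ : a * b ∈ Q := (hmQ _).2 ⟨P.mul_mem haP hbP, by
      rw [Perm.sign_mul, hsa, hsb]
      decide⟩
    have hFu : a * (g * (a * b) * g⁻¹) ∈ F :=
      Finset.mem_union_right _ (Finset.mem_image.2 ⟨_, habQ, rfl⟩)
    have h1 := hcos _ _ _ hF1 hFa hFu
    have h2 : 1 * a⁻¹ * (a * (g * (a * b) * g⁻¹)) = g * (a * b) * g⁻¹ := by group
    rw [h2] at h1
    have h3 : g * (a * b) * g⁻¹ ∈ P := by
      rw [hF, Finset.mem_union, Finset.mem_image] at h1
      rcases h1 with h1 | ⟨y, hy, h1⟩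
      · exact ((hmQ _).1 h1).1
      · exfalso
        have h4 := congrArg sign h1
        rw [Perm.sign_mul, hsconj, hsconj, hsa, ((hmQ _).1 hy).2, ((hmQ _).1 habQ).2] at h4
        exact absurd h4 (by decide)
    have h4 : g * (a * b) * g⁻¹ = a * b' := by
      rw [← hgb, ← mul_assoc g a b, hga]
      group
    rw [h4] at h3
    have h5 : b * b' ∈ P := by
      have h6 : b * b' = a * b * (a * b') := by
        rw [mul_assoc a b, ← mul_assoc b a b', hab, mul_assoc a b b', ← mul_assoc a a, haa, one_mul]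
      rw [h6]
      exact P.mul_mem ((hmQ _).1 habQ).1 h3
    have h7 : orderOf (b * b') = 3 :=
      (isThreeCycle_swap_mul_swap_same (hne 2 3 (by decide)) (hne 2 4 (by decide))
        (hne 3 4 (by decide))).orderOf
    obtain ⟨k, hk⟩ := P.isPGroup' ⟨_, h5⟩
    have hk' : (b * b') ^ 2 ^ k = 1 := by
      have := congrArg Subtype.val hk
      simpa using this
    have h8 := orderOf_dvd_of_pow_eq_one hk'
    rw [h7] at h8
    have h9 := (Nat.prime_three.dvd_of_dvd_pow h8)
    omega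

end Glue

/-! ### A large family for `n = 7` -/

section Seven

lemma even_of_pow {σ : Perm (Fin 7)} (h : σ ^ 105 ≠ 1) : HasEvenCycle σ := by
  by_contra hcon
  apply h
  apply orderOf_dvd_iff_pow_eq_one.1
  rw [← lcm_cycleType, Multiset.lcm_dvd]
  intro k hk
  have hodd : ¬ Even k := fun he => hcon ⟨k, hk, he⟩
  have hle : k ≤ 7 := by
    have h1 := Multiset.le_sum_of_mem hk
    have h2 := sum_cycleType_le σ
    simp only [Fintype.card_fin] at h2
    exact h1.trans h2
  interval_cases k <;> first | decide | (exfalso; exact hodd (by decide))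

/-- The one-line notations of sixteen even permutations of seven points. -/
def cf : Fin 16 → Fin 7 → Fin 7 :=
  ![![4, 1, 3, 2, 0, 5, 6], ![1, 5, 6, 4, 0, 2, 3], ![4, 3, 1, 2, 0, 6, 5], 
    ![1, 4, 3, 0, 2, 5, 6], ![2, 6, 5, 4, 1, 3, 0], ![0, 5, 6, 2, 1, 4, 3], 
    ![1, 3, 4, 0, 2, 6, 5], ![0, 6, 5, 1, 4, 3, 2], ![2, 3, 0, 4, 1, 6, 5], 
    ![2, 5, 6, 0, 4, 1, 3], ![0, 3, 2, 1, 4, 6, 5], ![4, 5, 6, 1, 2, 0, 3], 
    ![1, 6, 5, 0, 2, 3, 4], ![2, 0, 3, 4, 1, 5, 6], ![4, 6, 5, 2, 0, 3, 1], 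
    ![0, 2, 3, 1, 4, 5, 6]]

/-- Their inverses. -/
def cg : Fin 16 → Fin 7 → Fin 7 :=
  ![![4, 1, 3, 2, 0, 5, 6], ![4, 0, 5, 6, 3, 1, 2], ![4, 2, 3, 1, 0, 6, 5], 
    ![3, 0, 4, 2, 1, 5, 6], ![6, 4, 0, 5, 3, 2, 1], ![0, 4, 3, 6, 5, 1, 2], 
    ![3, 0, 4, 1, 2, 6, 5], ![0, 3, 6, 5, 4, 2, 1], ![2, 4, 0, 1, 3, 6, 5], 
    ![3, 5, 0, 6, 4, 1, 2], ![0, 3, 2, 1, 4, 6, 5], ![5, 3, 4, 6, 0, 1, 2], 
    ![3, 0, 4, 5, 6, 2, 1], ![1, 4, 0, 2, 3, 5, 6], ![4, 6, 3, 5, 0, 2, 1], 
    ![0, 3, 1, 2, 4, 5, 6]]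

lemma cg_cf : ∀ k i, cg k (cf k i) = i := by decide +kernel

lemma cf_cg : ∀ k i, cf k (cg k i) = i := by decide +kernel

/-- Sixteen even permutations of seven points. -/
def c (k : Fin 16) : Perm (Fin 7) := ⟨cf k, cg k, cg_cf k, cf_cg k⟩

/-- A transposition. -/
def tau : Perm (Fin 7) := swap 0 1

lemma quot_ne : ∀ k l, k ≠ l → ∃ x, (fun x => cf k (cg l x))^[3] x ≠ x ∧
    (fun x => cf k (cg l x))^[12] x = x := by
  decide +kernel

/-- The transposition `tau` as a function. -/
def tf : Fin 7 → Fin 7 := ![1, 0, 2, 3, 4, 5, 6]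

lemma tau_eq : ∀ x, tau x = tf x := by decide +kernel

lemma tau_quot_ne : ∀ k l, ∃ x, (fun x => tf (cf k (cg l x)))^[3] x ≠ x ∧
    (fun x => tf (cf k (cg l x)))^[12] x = x := by
  decide +kernel

lemma pow_ne_one {σ : Perm (Fin 7)} {x : Fin 7} (h3 : (⇑σ)^[3] x ≠ x) (h12 : (⇑σ)^[12] x = x) :
    σ ^ 105 ≠ 1 := by
  intro h1
  rw [iterate_eq_pow] at h3 h12
  have h2 : (σ ^ 96) x = x := by
    have : σ ^ 96 = (σ ^ 12) ^ 8 := by rw [← pow_mul]
    rw [this]
    exact (Function.IsFixedPt.perm_pow h12 8)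
  have h4 : (σ ^ 105) x = (σ ^ 9) ((σ ^ 96) x) := by
    rw [← Perm.mul_apply, ← pow_add]
  rw [h1, h2] at h4
  have h5 : (σ ^ 12) x = (σ ^ 3) ((σ ^ 9) x) := by
    rw [← Perm.mul_apply, ← pow_add]
  rw [← h4, h12] at h5
  exact h3 h5.symm

lemma quot_even {k l : Fin 16} (h : k ≠ l) : HasEvenCycle (c k * (c l)⁻¹) := by
  obtain ⟨x, hx, hx'⟩ := quot_ne k l h
  exact even_of_pow (pow_ne_one (x := x) hx hx')

lemma tau_quot_even (k l : Fin 16) : HasEvenCycle (tau * c k * (c l)⁻¹) := by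
  obtain ⟨x, hx, hx'⟩ := tau_quot_ne k l
  have h : (⇑(tau * c k * (c l)⁻¹) : Fin 7 → Fin 7) = fun x => tf (cf k (cg l x)) := by
    funext y
    exact tau_eq _
  rw [← h] at hx hx'
  exact even_of_pow (pow_ne_one (x := x) hx hx')

/-- The family of `32` permutations of seven points. -/
def F₇ : Finset (Perm (Fin 7)) := Finset.univ.image c ∪ Finset.univ.image fun k => tau * c k

lemma F₇_isECI : IsECI F₇ := by
  intro x hx y hy hxy
  simp only [F₇, Finset.mem_union, Finset.mem_image, Finset.mem_univ, true_and] at hx hy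
  rcases hx with ⟨k, rfl⟩ | ⟨k, rfl⟩ <;> rcases hy with ⟨l, rfl⟩ | ⟨l, rfl⟩
  · exact quot_even fun h => hxy (by rw [h])
  · have h1 := tau_quot_even l k
    have h2 : c k * (tau * c l)⁻¹ = (tau * c l * (c k)⁻¹)⁻¹ := by group
    rw [HasEvenCycle, h2, cycleType_inv]
    exact h1
  · exact tau_quot_even k l
  · have h2 : tau * c k * (tau * c l)⁻¹ = tau * (c k * (c l)⁻¹) * tau⁻¹ := by group
    rw [h2]
    exact (quot_even fun h => hxy (by rw [h])).conj tau

lemma F₇_card : F₇.card = 32 := by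
  have hc : Function.Injective c := by
    intro k l h
    by_contra hkl
    exact (quot_even hkl).ne_one (mul_inv_eq_one.2 h)
  rw [F₇, Finset.card_union_of_disjoint, Finset.card_image_of_injective _ hc,
    Finset.card_image_of_injective _ fun k l h => hc (mul_left_cancel h), Finset.card_univ,
    Fintype.card_fin]
  rw [Finset.disjoint_left]
  intro x hx hx'
  simp only [Finset.mem_image, Finset.mem_univ, true_and] at hx hx'
  obtain ⟨k, rfl⟩ := hx
  obtain ⟨l, hl⟩ := hx'
  exact (tau_quot_even l k).ne_one (mul_inv_eq_one.2 hl)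

lemma sylow_card (P : Sylow 2 (Perm (Fin 7))) : Nat.card P = 16 := by
  rw [Sylow.card_eq_multiplicity, Nat.card_eq_fintype_card, Fintype.card_perm, Fintype.card_fin]
  have h : Nat.factorial 7 = 2 ^ 4 * 315 := by decide
  rw [h, Nat.factorization_mul (by norm_num) (by norm_num), Nat.factorization_pow]
  have h2 : (315 : ℕ).factorization 2 = 0 := Nat.factorization_eq_zero_of_not_dvd (by decide)
  simp [h2, Nat.prime_two.factorization]

end Seven

/-- For every `n ≥ 5` some extremal even-cycle-intersecting family in `S_n` is not a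
double-translate of a Sylow 2-subgroup. For `n = 7` there is an even-cycle-intersecting family
with `32` members, while the Sylow 2-subgroups have order `16`. -/
theorem result :
    (∀ n : ℕ, 5 ≤ n → ∃ F : Finset (Perm (Fin n)), IsExtremal F ∧ ¬ IsDoubleTranslate F) ∧
    (∃ F : Finset (Perm (Fin 7)), IsECI F ∧ F.card = 32) ∧
    ∀ P : Sylow 2 (Perm (Fin 7)), Nat.card P = 16 :=
  ⟨fun _ hn => exists_extremal hn, ⟨F₇, F₇_isECI, F₇_card⟩, sylow_card⟩

end Pool.Agent.Results.MP_acd7ab_co.NotOnlySylow
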